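import Pool.Agent.Lib.MP_9cec2c_lc.RC.RcCl

/-!
TASK RcCount (medium): the probability that the clauses with numbers in `J` have all their variables in `W`,
and general facts on `prob`.

`prob_mono`, `prob_nonneg`, `prob_le_one`: cards of filters (`Finset.card_le_card`, division by a natural number
`≥ 0`; if the denominator is 0 everything is 0: `div_le_one_of_le₀`). `prob_union`: `Finset.card_biUnion_le`, or
`Finset.card_filter_le`-style: the filter of `∃ a ∈ s, Q a` is contained in the `biUnion` of the filters.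

`prob_contained`. The set `{c | ∀ i ∈ J, cvars (c i) ⊆ W}` is `Fintype.piFinset (fun i => if i ∈ J then AW else univ)`,
`AW = {d : Clause3 N | cvars d ⊆ W}`, so it has `|AW| ^ |J| * T ^ (M - |J|)` elements (`Fintype.card_piFinset`,
`Finset.prod_ite`), `T = card (Clause3 N)`; and `card (Fin M → Clause3 N) = T ^ M`. So (if `T ≠ 0`) the probability is
`(|AW| / T) ^ |J|`. If `T = 0` and `J` is not empty, the probability is `0`; if `J` is empty it is `≤ 1`.
`|AW| ≤ descFactorial |W| 3 * 8` : `d ∈ AW` gives an embedding `Fin 3 ↪ W` and 3 signs (`Fintype.card_embedding_eq`,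
injection `AW → (Fin 3 ↪ W) × (Fin 3 → Bool)`), `T = descFactorial N 3 * 8`. With `w = |W| ≤ N`:
`w (w-1) (w-2) N^3 ≤ w^3 N (N-1) (N-2)` because `(w - i) N ≤ w (N - i)` (in `ℕ`, `Nat.descFactorial_succ`). So
`|AW| / T ≤ (w / N) ^ 3`.
-/

set_option autoImplicit false

open Finset
open scoped Classical

namespace Pool.Agent.MP_9cec2c_lc.SL

theorem prob_nonneg {N M : ℕ} (Q : (Fin M → Clause3 N) → Prop) : 0 ≤ prob Q := by
  unfold prob
  positivity

theorem prob_le_one {N M : ℕ} (Q : (Fin M → Clause3 N) → Prop) : prob Q ≤ 1 := by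
  unfold prob
  apply div_le_one_of_le₀ _ (Nat.cast_nonneg _)
  exact_mod_cast (card_le_univ _)

theorem prob_mono {N M : ℕ} {Q R : (Fin M → Clause3 N) → Prop} (h : ∀ c, Q c → R c) :
    prob Q ≤ prob R := by
  unfold prob
  apply div_le_div_of_nonneg_right _ (Nat.cast_nonneg _)
  have h1 : (univ.filter Q).card ≤ (univ.filter R).card := by
    apply card_le_card
    intro c hc
    simp only [mem_filter, mem_univ, true_and] at *
    exact h c hc
  exact_mod_cast h1

private theorem RcCount_prob {N M : ℕ} (Q : (Fin M → Clause3 N) → Prop) [DecidablePred Q] :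
    prob Q = ((univ.filter Q).card : ℝ) / Fintype.card (Fin M → Clause3 N) := by
  unfold prob
  congr!

theorem prob_union {N M : ℕ} {α : Type} (s : Finset α) (Q : α → (Fin M → Clause3 N) → Prop) :
    prob (fun c => ∃ a ∈ s, Q a c) ≤ ∑ a ∈ s, prob (Q a) := by
  rw [RcCount_prob, Finset.sum_congr rfl (fun a _ => RcCount_prob (Q a)), ← Finset.sum_div]
  apply div_le_div_of_nonneg_right _ (Nat.cast_nonneg _)
  have h1 : (univ.filter (fun c => ∃ a ∈ s, Q a c)).card ≤ ∑ a ∈ s, (univ.filter (Q a)).card := by
    refine le_trans (card_le_card ?_) card_biUnion_le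
    intro c hc
    simp only [mem_filter, mem_univ, true_and, mem_biUnion] at *
    exact hc
  exact_mod_cast h1

theorem card_clause3 (N : ℕ) : Fintype.card (Clause3 N) = N.descFactorial 3 * 8 := by
  rw [Fintype.card_prod, Fintype.card_embedding_eq]
  simp

private theorem RcCount_desc (w N : ℕ) (h : w ≤ N) :
    w.descFactorial 3 * N ^ 3 ≤ w ^ 3 * N.descFactorial 3 := by
  have key : ∀ i, (w - i) * N ≤ w * (N - i) := by
    intro i
    rcases le_total w i with h1 | h1
    · simp [Nat.sub_eq_zero_of_le h1]
    · obtain ⟨a, rfl⟩ := Nat.exists_eq_add_of_le h1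
      obtain ⟨b, rfl⟩ := Nat.exists_eq_add_of_le h
      have e1 : i + a - i = a := by omega
      have e2 : i + a + b - i = a + b := by omega
      rw [e1, e2]
      nlinarith [Nat.zero_le (i * b)]
  have e3 : ∀ n : ℕ, n.descFactorial 3 = (n - 2) * ((n - 1) * (n - 0)) := by
    intro n
    simp [Nat.descFactorial_succ, Nat.descFactorial_zero]
  rw [e3, e3]
  calc (w - 2) * ((w - 1) * (w - 0)) * N ^ 3
      = ((w - 2) * N) * (((w - 1) * N) * ((w - 0) * N)) := by ring
    _ ≤ (w * (N - 2)) * ((w * (N - 1)) * (w * (N - 0))) :=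
        Nat.mul_le_mul (key 2) (Nat.mul_le_mul (key 1) (key 0))
    _ = w ^ 3 * ((N - 2) * ((N - 1) * (N - 0))) := by ring

private theorem RcCount_AW (N : ℕ) (W : Finset (Fin N)) :
    (univ.filter (fun d : Clause3 N => cvars d ⊆ W)).card ≤ W.card.descFactorial 3 * 8 := by
  have h1 : Fintype.card ((Fin 3 ↪ W) × (Fin 3 → Bool)) = W.card.descFactorial 3 * 8 := by
    rw [Fintype.card_prod, Fintype.card_embedding_eq]
    simp
  rw [← h1, ← Fintype.card_coe]
  have hm : ∀ (d : {d // d ∈ univ.filter (fun d : Clause3 N => cvars d ⊆ W)}) (i : Fin 3),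
      d.1.1 i ∈ W := by
    intro d i
    have h2 := d.2
    simp only [mem_filter, mem_univ, true_and] at h2
    exact h2 (mem_image_of_mem _ (mem_univ i))
  have hi : ∀ (d : {d // d ∈ univ.filter (fun d : Clause3 N => cvars d ⊆ W)}),
      Function.Injective (fun i : Fin 3 => (⟨d.1.1 i, hm d i⟩ : W)) := by
    intro d i j hij
    exact d.1.1.injective (congrArg Subtype.val hij)
  refine Fintype.card_le_of_injective
    (fun d => ((⟨fun i => ⟨d.1.1 i, hm d i⟩, hi d⟩ : Fin 3 ↪ W), d.1.2)) ?_
  intro d d' h
  have h2 := congrArg Prod.fst h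
  have h3 := congrArg Prod.snd h
  apply Subtype.ext
  apply Prod.ext
  · apply Function.Embedding.ext
    intro i
    have h4 := congrArg (fun f : Fin 3 ↪ W => (f i).1) h2
    exact h4
  · exact h3

private theorem RcCount_ratio {N : ℕ} (hN : 1 ≤ N) (W : Finset (Fin N)) :
    ((univ.filter (fun d : Clause3 N => cvars d ⊆ W)).card : ℝ) / Fintype.card (Clause3 N) ≤
      ((W.card : ℝ) / N) ^ 3 := by
  have hw : W.card ≤ N := by
    have := card_le_univ W
    simpa using this
  have h1 := RcCount_AW N W
  have h2 := RcCount_desc W.card N hw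
  have hN' : (0 : ℝ) < N := by exact_mod_cast hN
  rw [card_clause3]
  rcases Nat.eq_zero_or_pos (N.descFactorial 3) with h0 | h0
  · rw [h0]
    simp only [zero_mul, Nat.cast_zero, div_zero]
    positivity
  · have h0' : (0 : ℝ) < ((N.descFactorial 3 * 8 : ℕ) : ℝ) := by
      have : 0 < N.descFactorial 3 * 8 := by omega
      exact_mod_cast this
    rw [div_pow, div_le_div_iff₀ h0' (by positivity)]
    have h3 : (univ.filter (fun d : Clause3 N => cvars d ⊆ W)).card * N ^ 3 ≤
        W.card ^ 3 * (N.descFactorial 3 * 8) := by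
      calc (univ.filter (fun d : Clause3 N => cvars d ⊆ W)).card * N ^ 3
          ≤ (W.card.descFactorial 3 * 8) * N ^ 3 := Nat.mul_le_mul_right _ h1
        _ = (W.card.descFactorial 3 * N ^ 3) * 8 := by ring
        _ ≤ (W.card ^ 3 * N.descFactorial 3) * 8 := Nat.mul_le_mul_right _ h2
        _ = _ := by ring
    exact_mod_cast h3

theorem prob_contained {N M : ℕ} (hN : 1 ≤ N) (J : Finset (Fin M)) (W : Finset (Fin N)) :
    prob (fun c : Fin M → Clause3 N => ∀ i ∈ J, cvars (c i) ⊆ W) ≤
      ((W.card : ℝ) / N) ^ (3 * J.card) := by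
  have hr := RcCount_ratio hN W
  set A : Finset (Clause3 N) := univ.filter (fun d : Clause3 N => cvars d ⊆ W) with hA
  have h1 : (univ.filter (fun c : Fin M → Clause3 N => ∀ i ∈ J, cvars (c i) ⊆ W)) =
      Fintype.piFinset (fun i => if i ∈ J then A else univ) := by
    ext c
    simp only [mem_filter, mem_univ, true_and, Fintype.mem_piFinset]
    constructor
    · intro h i
      by_cases hi : i ∈ J
      · rw [if_pos hi, hA]
        simp only [mem_filter, mem_univ, true_and]
        exact h i hi
      · rw [if_neg hi]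
        exact mem_univ _
    · intro h i hi
      have h2 := h i
      rw [if_pos hi, hA] at h2
      simpa using h2
  have h2 : (Fintype.piFinset (fun i : Fin M => if i ∈ J then A else univ)).card =
      A.card ^ J.card * Fintype.card (Clause3 N) ^ (M - J.card) := by
    rw [Fintype.card_piFinset]
    have h3 : ∀ i : Fin M, (if i ∈ J then A else (univ : Finset (Clause3 N))).card =
        if i ∈ J then A.card else Fintype.card (Clause3 N) := by
      intro i
      split_ifs
      · rfl
      · rw [card_univ]
    rw [Finset.prod_congr rfl (fun i _ => h3 i), Finset.prod_ite, Finset.prod_const,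
      Finset.prod_const]
    congr 2
    · congr 1
      ext i
      simp
    · have h4 : (univ.filter (fun i : Fin M => ¬ i ∈ J)) = univ \ J := by
        ext i
        simp
      rw [h4, card_univ_sdiff, Fintype.card_fin]
  have h3 : Fintype.card (Fin M → Clause3 N) = Fintype.card (Clause3 N) ^ M := by
    simp
  have hJ : J.card ≤ M := by
    have := card_le_univ J
    simpa using this
  rw [RcCount_prob, h1, h2, h3]
  rcases Nat.eq_zero_or_pos (Fintype.card (Clause3 N)) with h0 | h0
  · rcases Nat.eq_zero_or_pos M with hM | hM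
    · subst hM
      have hJ0 : J.card = 0 := by omega
      rw [hJ0]
      simp
    · rw [h0, zero_pow hM.ne']
      simp only [Nat.cast_zero, div_zero]
      positivity
  · have h0' : (0 : ℝ) < (Fintype.card (Clause3 N) : ℝ) := by exact_mod_cast h0
    have h4 : ((A.card ^ J.card * Fintype.card (Clause3 N) ^ (M - J.card) : ℕ) : ℝ) /
        ((Fintype.card (Clause3 N) ^ M : ℕ) : ℝ) =
        ((A.card : ℝ) / Fintype.card (Clause3 N)) ^ J.card := by
      push_cast
      have h5 : (Fintype.card (Clause3 N) : ℝ) ^ M =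
          (Fintype.card (Clause3 N) : ℝ) ^ J.card * (Fintype.card (Clause3 N) : ℝ) ^ (M - J.card) := by
        rw [← pow_add]
        congr 1
        omega
      rw [h5, div_pow, mul_div_mul_right _ _ (pow_ne_zero _ h0'.ne')]
    rw [h4, pow_mul]
    exact pow_le_pow_left₀ (by positivity) hr _

end Pool.Agent.MP_9cec2c_lc.SL
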