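import Mathlib

/-!
TASK RcNum (medium): numerical inequalities (self-contained).

`choose_bound`: `n.choose k ≤ n ^ k / k!` (`Nat.choose_le_pow_div`) and `k ^ k / k! ≤ exp k ≤ 3 ^ k`
(`Real.pow_div_factorial_le_exp`, `Real.exp_one_lt_d9`), so `n.choose k * k ^ k ≤ 3 ^ k * n ^ k`.
`term_bound` (`1 ≤ j`, `w ≤ 2 j`, `w ≤ N`, `1 ≤ N`): if `w = 0` the left side is `0`. Otherwise
`C(ΔN, j) ≤ (3 Δ N / j)^j`, `C(N, w) ≤ (3 N / w)^w`, so the left side is at most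
`(3 Δ)^j (N/j)^j 3^w (N/w)^w (w/N)^(3j) = (3 Δ)^j (N/j)^j 3^w (w/N)^(3j - w)`, and `w/N ≤ 2 j/N`:
`≤ (3 Δ)^j 3^(2j) 2^(3j - w) (N/j)^j (j/N)^(3j - w) ≤ (3·9·8 Δ)^j (j/N)^(2j - w)`. (`3 ^ w ≤ 3 ^ (2j)`,
`2^(3j - w) ≤ 2^(3j)`; `(N/j)^j (j/N)^(3j-w) = (j/N)^(2j-w)`.)
`term_small`: with `k = 2 j - (7 j - 1) / 4` we have `1 ≤ k` and `j ≤ 4 k` (omega). Let `B = 216 Δ ≥ 1`, `y = j/N ≤ η`.
`B^j y^k ≤ B^(4k) y^k = (B^4 y)^(k-1) · B^4 y`... precisely: `y^k ≤ y η^(k-1)`, `B^j ≤ B^(4k)`, hence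
`B^j y^k ≤ (B^4 η)^k y / η ≤ (1/16)^k y / η ≤ (1/2)^j y / η` as `B^4 η ≤ 1/16`, `16^k = 2^(4k) ≥ 2^j`.
`sum_small`: `∑_{j=1}^{A} j 2^(-j) ≤ 2` (for instance `∑_{j<n} j 2^(-j) = 2 - (n+1) 2^(1-n)` by induction, or
`tsum`), so the sum of the `term_small` bounds is `≤ 2 / (η N)`.
-/

set_option autoImplicit false

open Finset

namespace Pool.Agent.MP_9cec2c_lc.SL

theorem choose_bound (n k : ℕ) : ((n.choose k : ℕ) : ℝ) * (k : ℝ) ^ k ≤ 3 ^ k * (n : ℝ) ^ k := by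
  have h1 : ((n.choose k : ℕ) : ℝ) ≤ (n : ℝ) ^ k / (k.factorial : ℝ) := Nat.choose_le_pow_div k n
  have hf : (0 : ℝ) < (k.factorial : ℝ) := by exact_mod_cast k.factorial_pos
  have h2 : (k : ℝ) ^ k / (k.factorial : ℝ) ≤ 3 ^ k := by
    have h3 : (k : ℝ) ^ k / (k.factorial : ℝ) ≤ Real.exp (k : ℝ) :=
      Real.pow_div_factorial_le_exp (k : ℝ) (Nat.cast_nonneg k) k
    have h4 : Real.exp (k : ℝ) = Real.exp 1 ^ k := by
      rw [← Real.exp_nat_mul, mul_one]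
    have h5 : Real.exp 1 ^ k ≤ 3 ^ k := by
      apply pow_le_pow_left₀ (Real.exp_pos 1).le
      have := Real.exp_one_lt_d9
      linarith
    linarith
  calc ((n.choose k : ℕ) : ℝ) * (k : ℝ) ^ k ≤ ((n : ℝ) ^ k / (k.factorial : ℝ)) * (k : ℝ) ^ k :=
        mul_le_mul_of_nonneg_right h1 (by positivity)
    _ = (n : ℝ) ^ k * ((k : ℝ) ^ k / (k.factorial : ℝ)) := by ring
    _ ≤ (n : ℝ) ^ k * 3 ^ k := mul_le_mul_of_nonneg_left h2 (by positivity)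
    _ = 3 ^ k * (n : ℝ) ^ k := by ring

theorem term_bound {Δ N j w : ℕ} (hΔ : 1 ≤ Δ) (hN : 1 ≤ N) (hj : 1 ≤ j) (hw : w ≤ 2 * j)
    (hwN : w ≤ N) :
    (((Δ * N).choose j : ℕ) : ℝ) * ((N.choose w : ℕ) : ℝ) * ((w : ℝ) / N) ^ (3 * j) ≤
      (216 * (Δ : ℝ)) ^ j * ((j : ℝ) / N) ^ (2 * j - w) := by
  have hx : (0 : ℝ) < (N : ℝ) := by exact_mod_cast hN
  have hJ : (0 : ℝ) < (j : ℝ) := by exact_mod_cast hj
  have hD : (0 : ℝ) < (Δ : ℝ) := by exact_mod_cast hΔ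
  obtain ⟨u, hu⟩ : ∃ u, 2 * j = w + u := ⟨2 * j - w, by omega⟩
  have hu' : 2 * j - w = u := by omega
  have h3j : 3 * j = w + (j + u) := by omega
  rw [hu', h3j]
  have hW : (0 : ℝ) ≤ (w : ℝ) := Nat.cast_nonneg w
  have hWJ : (w : ℝ) ≤ 2 * (j : ℝ) := by exact_mod_cast hw
  set a : ℝ := (((Δ * N).choose j : ℕ) : ℝ) with ha
  set b : ℝ := ((N.choose w : ℕ) : ℝ) with hb
  have ha0 : 0 ≤ a := Nat.cast_nonneg _
  have hb0 : 0 ≤ b := Nat.cast_nonneg _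
  have h1 : a * ((j : ℝ) / N) ^ j ≤ (3 * (Δ : ℝ)) ^ j := by
    have h := choose_bound (Δ * N) j
    rw [← ha] at h
    push_cast at h
    rw [div_pow, ← mul_div_assoc, div_le_iff₀ (by positivity)]
    calc a * (j : ℝ) ^ j ≤ 3 ^ j * ((Δ : ℝ) * N) ^ j := h
      _ = (3 * (Δ : ℝ)) ^ j * (N : ℝ) ^ j := by rw [mul_pow, mul_pow]; ring
  have h2 : b * ((w : ℝ) / N) ^ w ≤ 3 ^ w := by
    have h := choose_bound N w
    rw [← hb] at h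
    rw [div_pow, ← mul_div_assoc, div_le_iff₀ (by positivity)]
    exact h
  have h3 : ((w : ℝ) / N) ^ (j + u) ≤ 2 ^ (j + u) * (((j : ℝ) / N) ^ j * ((j : ℝ) / N) ^ u) := by
    have h4 : (w : ℝ) / N ≤ 2 * ((j : ℝ) / N) := by
      rw [← mul_div_assoc]
      exact div_le_div_of_nonneg_right hWJ hx.le
    calc ((w : ℝ) / N) ^ (j + u) ≤ (2 * ((j : ℝ) / N)) ^ (j + u) :=
          pow_le_pow_left₀ (by positivity) h4 _
      _ = 2 ^ (j + u) * (((j : ℝ) / N) ^ j * ((j : ℝ) / N) ^ u) := by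
          rw [mul_pow, pow_add ((j : ℝ) / N)]
  have h5 : (3 : ℝ) ^ w ≤ 9 ^ j := by
    have h6 : (9 : ℝ) ^ j = 3 ^ (2 * j) := by rw [pow_mul]; norm_num
    rw [h6]
    exact pow_le_pow_right₀ (by norm_num) hw
  have h7 : (2 : ℝ) ^ (j + u) ≤ 8 ^ j := by
    have h8 : (8 : ℝ) ^ j = 2 ^ (3 * j) := by rw [pow_mul]; norm_num
    rw [h8]
    exact pow_le_pow_right₀ (by norm_num) (by omega)
  have hyu : 0 ≤ ((j : ℝ) / N) ^ u := by positivity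
  have hyj : 0 ≤ ((j : ℝ) / N) ^ j := by positivity
  calc a * b * ((w : ℝ) / N) ^ (w + (j + u))
      = (b * ((w : ℝ) / N) ^ w) * (a * ((w : ℝ) / N) ^ (j + u)) := by rw [pow_add]; ring
    _ ≤ 3 ^ w * (a * (2 ^ (j + u) * (((j : ℝ) / N) ^ j * ((j : ℝ) / N) ^ u))) := by
        apply mul_le_mul h2 _ (by positivity) (by positivity)
        exact mul_le_mul_of_nonneg_left h3 ha0
    _ = (3 ^ w * 2 ^ (j + u)) * ((a * ((j : ℝ) / N) ^ j) * ((j : ℝ) / N) ^ u) := by ring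
    _ ≤ (9 ^ j * 8 ^ j) * ((3 * (Δ : ℝ)) ^ j * ((j : ℝ) / N) ^ u) := by
        apply mul_le_mul
        · exact mul_le_mul h5 h7 (by positivity) (by positivity)
        · exact mul_le_mul_of_nonneg_right h1 hyu
        · positivity
        · positivity
    _ = (216 * (Δ : ℝ)) ^ j * ((j : ℝ) / N) ^ u := by
        have h9 : (216 * (Δ : ℝ)) ^ j = 9 ^ j * 8 ^ j * (3 * (Δ : ℝ)) ^ j := by
          rw [← mul_pow, ← mul_pow]
          congr 1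
          ring
        rw [h9]
        ring

theorem term_small {B η y : ℝ} {j : ℕ} (hB : 1 ≤ B) (hη : 0 < η) (hη1 : B ^ 4 * η ≤ 1 / 16)
    (hy : 0 ≤ y) (hyη : y ≤ η) (hj : 1 ≤ j) :
    B ^ j * y ^ (2 * j - (7 * j - 1) / 4) ≤ (1 / 2) ^ j * y / η := by
  obtain ⟨k, hk⟩ : ∃ k, 2 * j - (7 * j - 1) / 4 = k + 1 := ⟨2 * j - (7 * j - 1) / 4 - 1, by omega⟩
  have hjk : j ≤ 4 * (k + 1) := by omega
  rw [hk]
  have h1 : B ^ j ≤ B ^ (4 * (k + 1)) := pow_le_pow_right₀ hB hjk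
  have h2 : y ^ (k + 1) ≤ η ^ k * y := by
    rw [pow_succ]
    exact mul_le_mul_of_nonneg_right (pow_le_pow_left₀ hy hyη k) hy
  have h3 : (B ^ 4 * η) ^ (k + 1) ≤ (1 / 16 : ℝ) ^ (k + 1) :=
    pow_le_pow_left₀ (by positivity) hη1 _
  have h4 : (1 / 16 : ℝ) ^ (k + 1) ≤ (1 / 2) ^ j := by
    have h5 : (1 / 16 : ℝ) ^ (k + 1) = (1 / 2) ^ (4 * (k + 1)) := by
      rw [pow_mul]; norm_num
    rw [h5]
    exact pow_le_pow_of_le_one (by norm_num) (by norm_num) hjk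
  have hyη' : 0 ≤ y / η := by positivity
  calc B ^ j * y ^ (k + 1) ≤ B ^ (4 * (k + 1)) * (η ^ k * y) :=
        mul_le_mul h1 h2 (by positivity) (by positivity)
    _ = (B ^ 4 * η) ^ (k + 1) * (y / η) := by
        rw [mul_pow, ← pow_mul, pow_succ η]
        field_simp
    _ ≤ (1 / 2) ^ j * (y / η) := mul_le_mul_of_nonneg_right (h3.trans h4) hyη'
    _ = (1 / 2) ^ j * y / η := by ring

theorem sum_small (A : ℕ) : ∑ j ∈ Icc 1 A, (j : ℝ) * (1 / 2) ^ j ≤ 2 := by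
  have key : ∀ A : ℕ, ∑ j ∈ Icc 1 A, (j : ℝ) * (1 / 2) ^ j = 2 - ((A : ℝ) + 2) * (1 / 2) ^ A := by
    intro A
    induction A with
    | zero => simp
    | succ A ih =>
      rw [Finset.sum_Icc_succ_top (by omega), ih]
      push_cast
      rw [pow_succ]
      ring
  rw [key]
  have : 0 ≤ ((A : ℝ) + 2) * (1 / 2) ^ A := by positivity
  linarith

end Pool.Agent.MP_9cec2c_lc.SL
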