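import Pool.Agent.Lib.MP_9cec2c_lc.RC.RcComb
import Pool.Agent.Lib.MP_9cec2c_lc.RC.RcCount
import Pool.Agent.Lib.MP_9cec2c_lc.RC.RcNum

/-!
With high probability the random system expands: union bound over the sets of clauses and of variables.
-/

set_option autoImplicit false

open Finset
open scoped Classical

namespace Pool.Agent.MP_9cec2c_lc.SL

theorem prob_not_expand {Δ N A : ℕ} {η : ℝ} (hΔ : 1 ≤ Δ) (hN : 1 ≤ N) (hη : 0 < η)
    (hη1 : (216 * (Δ : ℝ)) ^ 4 * η ≤ 1 / 16) (hA : (A : ℝ) ≤ η * N) :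
    prob (fun c : Fin (Δ * N) → Clause3 N => ¬ ∀ T : Cube (Fin (Δ * N)), wt T ≤ A →
      wt T ≤ 2 * wt (comb (fun v => crow (c v)) T)) ≤ 2 / (η * N) := by
  have hΔ1 : (1 : ℝ) ≤ Δ := by exact_mod_cast hΔ
  have hN0 : (0 : ℝ) < N := by exact_mod_cast hN
  have hB1 : (1 : ℝ) ≤ 216 * (Δ : ℝ) := by linarith
  have hη2 : η ≤ 1 / 16 := by
    have h1 : (1 : ℝ) ≤ (216 * (Δ : ℝ)) ^ 4 := one_le_pow₀ hB1
    nlinarith
  have hAN : 16 * A ≤ N := by
    have h1 : (16 : ℝ) * A ≤ N := by nlinarith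
    exact_mod_cast h1
  have hcov : ∀ c : Fin (Δ * N) → Clause3 N, (¬ ∀ T : Cube (Fin (Δ * N)), wt T ≤ A →
      wt T ≤ 2 * wt (comb (fun v => crow (c v)) T)) →
      ∃ j ∈ Icc 1 A, ∃ J ∈ powersetCard j (univ : Finset (Fin (Δ * N))),
        ∃ W ∈ powersetCard ((7 * j - 1) / 4) (univ : Finset (Fin N)), ∀ i ∈ J, cvars (c i) ⊆ W := by
    intro c hc
    push Not at hc
    obtain ⟨T, hT, hb⟩ := hc
    have hj : (7 * wt T - 1) / 4 ≤ N := by omega
    obtain ⟨J, W, hJ, hW, h⟩ := bad_cover c T hb hj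
    exact ⟨wt T, mem_Icc.2 ⟨by omega, hT⟩, J, mem_powersetCard.2 ⟨subset_univ _, hJ⟩, W,
      mem_powersetCard.2 ⟨subset_univ _, hW⟩, h⟩
  refine (prob_mono hcov).trans ((prob_union _ _).trans ?_)
  have hterm : ∀ j ∈ Icc 1 A, prob (fun c : Fin (Δ * N) → Clause3 N =>
      ∃ J ∈ powersetCard j (univ : Finset (Fin (Δ * N))),
        ∃ W ∈ powersetCard ((7 * j - 1) / 4) (univ : Finset (Fin N)), ∀ i ∈ J, cvars (c i) ⊆ W) ≤
      (j : ℝ) * (1 / 2) ^ j * (1 / (η * N)) := by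
    intro j hj
    obtain ⟨hj1, hjA⟩ := mem_Icc.1 hj
    have hw : (7 * j - 1) / 4 ≤ 2 * j := by omega
    have hwN : (7 * j - 1) / 4 ≤ N := by omega
    have h1 : prob (fun c : Fin (Δ * N) → Clause3 N =>
        ∃ J ∈ powersetCard j (univ : Finset (Fin (Δ * N))),
          ∃ W ∈ powersetCard ((7 * j - 1) / 4) (univ : Finset (Fin N)), ∀ i ∈ J, cvars (c i) ⊆ W) ≤
        ∑ J ∈ powersetCard j (univ : Finset (Fin (Δ * N))),
          ∑ W ∈ powersetCard ((7 * j - 1) / 4) (univ : Finset (Fin N)),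
            ((((7 * j - 1) / 4 : ℕ) : ℝ) / N) ^ (3 * j) := by
      refine (prob_union _ _).trans (sum_le_sum fun J hJ => ?_)
      refine (prob_union _ _).trans (sum_le_sum fun W hW => ?_)
      have h2 := prob_contained (M := Δ * N) hN J W
      rw [(mem_powersetCard.1 hJ).2, (mem_powersetCard.1 hW).2] at h2
      exact h2
    rw [sum_const, sum_const, card_powersetCard, card_powersetCard, card_univ, card_univ,
      Fintype.card_fin, Fintype.card_fin, nsmul_eq_mul, nsmul_eq_mul, ← mul_assoc] at h1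
    refine h1.trans ((term_bound hΔ hN hj1 hw hwN).trans ?_)
    have hy : (j : ℝ) / N ≤ η := by
      rw [div_le_iff₀ hN0]
      have : (j : ℝ) ≤ A := by exact_mod_cast hjA
      linarith
    refine (term_small hB1 hη hη1 (by positivity) hy hj1).trans (le_of_eq ?_)
    field_simp
  refine (sum_le_sum hterm).trans ?_
  rw [← sum_mul]
  have h3 := mul_le_mul_of_nonneg_right (sum_small A) (by positivity : (0 : ℝ) ≤ 1 / (η * N))
  refine h3.trans (le_of_eq ?_)
  ring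

end Pool.Agent.MP_9cec2c_lc.SL
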