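import Pool.Agent.Lib.MP_9cec2c_lc.RC.RcCount

/-!
TASK RcUnsat (medium): random 3-CNFs with at least `6 N` clauses are unsatisfiable (first moment).

For a fixed assignment `x` the set `{c | ∀ j, ∃ i, x ((c j).1 i) = (c j).2 i}` is the `piFinset` of the constant set
`G = {d : Clause3 N | ∃ i, x (d.1 i) = d.2 i}`; `|G| = descFactorial N 3 * 7` (for each of the `descFactorial N 3`
embeddings exactly one of the 8 sign vectors is excluded, `d.2 = fun i => !x (d.1 i)`: the complement of `G` is in bijection with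
`Fin 3 ↪ Fin N`), `card (Clause3 N) = descFactorial N 3 * 8 ≠ 0` (`N ≥ 3`). So `prob = (7/8)^(Δ N)`; union bound over the
`2 ^ N` assignments (`prob_union` with `s = univ`, `cnf3_sat`): `prob ≤ 2^N (7/8)^(Δ N) ≤ (2 (7/8)^6)^N` (`Δ ≥ 6`), and
`2 (7/8)^6 = 0.897.. < 1`.
-/

set_option autoImplicit false

open Finset
open scoped Classical

namespace Pool.Agent.MP_9cec2c_lc.SL

private lemma RcUnsat_good {N : ℕ} (x : Fin N → Bool) :
    (univ.filter (fun d : Clause3 N => ∃ i, x (d.1 i) = d.2 i)).card = N.descFactorial 3 * 7 := by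
  rw [Finset.card_filter, Fintype.sum_prod_type]
  have h7 : ∀ e : Fin 3 ↪ Fin N,
      ∑ s : Fin 3 → Bool, (if ∃ i, x (e i) = s i then 1 else 0) = 7 := by
    intro e
    rw [← Finset.card_filter]
    have h : univ.filter (fun s : Fin 3 → Bool => ∃ i, x (e i) = s i)
        = (univ : Finset (Fin 3 → Bool)).erase (fun i => !x (e i)) := by
      ext s
      simp only [mem_filter, mem_univ, true_and, mem_erase, and_true, ne_eq]
      constructor
      · rintro ⟨i, hi⟩ he
        have := congrFun he i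
        rw [← hi] at this
        cases hx : x (e i) <;> simp [hx] at this
      · intro hne
        by_contra hcon
        apply hne
        funext i
        have hi : ¬ x (e i) = s i := fun hh => hcon ⟨i, hh⟩
        cases hx : x (e i) <;> cases hs : s i <;> simp_all
    rw [h, card_erase_of_mem (mem_univ _)]
    simp
  calc ∑ e : Fin 3 ↪ Fin N, ∑ s : Fin 3 → Bool,
        (if ∃ i, x (((e, s) : Clause3 N).1 i) = ((e, s) : Clause3 N).2 i then 1 else 0)
      = ∑ e : Fin 3 ↪ Fin N, 7 := Finset.sum_congr rfl (fun e _ => h7 e)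
    _ = N.descFactorial 3 * 7 := by
      simp [Fintype.card_embedding_eq]

private lemma RcUnsat_card {N M : ℕ} (x : Fin N → Bool)
    (inst : DecidablePred (fun c : Fin M → Clause3 N => ∀ C ∈ cnf3 c, ∃ l ∈ C, x l.1 = l.2)) :
    (@Finset.filter _ (fun c : Fin M → Clause3 N => ∀ C ∈ cnf3 c, ∃ l ∈ C, x l.1 = l.2) inst
      univ).card = (N.descFactorial 3 * 7) ^ M := by
  have hset : @Finset.filter _ (fun c : Fin M → Clause3 N =>
        ∀ C ∈ cnf3 c, ∃ l ∈ C, x l.1 = l.2) inst univ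
      = Fintype.piFinset (fun _ : Fin M =>
        univ.filter (fun d : Clause3 N => ∃ i, x (d.1 i) = d.2 i)) := by
    ext c
    simp only [mem_filter, mem_univ, true_and, Fintype.mem_piFinset]
    exact cnf3_sat c x
  rw [hset, Fintype.card_piFinset]
  simp only [RcUnsat_good, Finset.prod_const, Finset.card_univ, Fintype.card_fin]

private lemma RcUnsat_prob {N M : ℕ} (hN : 3 ≤ N) (x : Fin N → Bool) :
    prob (fun c : Fin M → Clause3 N => ∀ C ∈ cnf3 c, ∃ l ∈ C, x l.1 = l.2) = (7 / 8 : ℝ) ^ M := by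
  have htot : Fintype.card (Fin M → Clause3 N) = (N.descFactorial 3 * 8) ^ M := by
    rw [Fintype.card_fun, card_clause3, Fintype.card_fin]
  have hpos : (0 : ℝ) < (N.descFactorial 3 : ℝ) := by
    have : 0 < N.descFactorial 3 := by
      rw [Nat.descFactorial_pos]
      exact hN
    exact_mod_cast this
  unfold prob
  rw [RcUnsat_card x _, htot]
  push_cast
  rw [← div_pow]
  congr 1
  field_simp

/-- Random 3-CNFs with at least `6 N` clauses are unsatisfiable. -/
theorem rc_unsat (Δ : ℕ) (hΔ : 6 ≤ Δ) : ∃ q : ℝ, q < 1 ∧ 0 ≤ q ∧ ∀ N : ℕ, 3 ≤ N →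
    prob (fun c : Fin (Δ * N) → Clause3 N => ∃ x : Fin N → Bool, ∀ C ∈ cnf3 c, ∃ l ∈ C, x l.1 = l.2) ≤
      q ^ N := by
  refine ⟨2 * (7 / 8) ^ 6, by norm_num, by norm_num, ?_⟩
  intro N hN
  have h1 : prob (fun c : Fin (Δ * N) → Clause3 N =>
        ∃ x : Fin N → Bool, ∀ C ∈ cnf3 c, ∃ l ∈ C, x l.1 = l.2)
      ≤ prob (fun c : Fin (Δ * N) → Clause3 N =>
        ∃ x ∈ (univ : Finset (Fin N → Bool)), ∀ C ∈ cnf3 c, ∃ l ∈ C, x l.1 = l.2) := by
    apply prob_mono
    rintro c ⟨x, hx⟩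
    exact ⟨x, mem_univ x, hx⟩
  have h2 := prob_union (N := N) (M := Δ * N) (univ : Finset (Fin N → Bool))
    (fun x c => ∀ C ∈ cnf3 c, ∃ l ∈ C, x l.1 = l.2)
  have h3 : ∑ x ∈ (univ : Finset (Fin N → Bool)),
      prob (fun c : Fin (Δ * N) → Clause3 N => ∀ C ∈ cnf3 c, ∃ l ∈ C, x l.1 = l.2)
      = 2 ^ N * (7 / 8 : ℝ) ^ (Δ * N) := by
    rw [Finset.sum_congr rfl (fun x _ => RcUnsat_prob hN x)]
    simp
  have h4 : (2 : ℝ) ^ N * (7 / 8 : ℝ) ^ (Δ * N) ≤ (2 * (7 / 8) ^ 6) ^ N := by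
    rw [mul_pow, ← pow_mul]
    apply mul_le_mul_of_nonneg_left _ (by positivity)
    exact pow_le_pow_of_le_one (by norm_num) (by norm_num) (Nat.mul_le_mul_right N hΔ)
  calc _ ≤ _ := h1
    _ ≤ _ := h2
    _ = _ := h3
    _ ≤ _ := h4

end Pool.Agent.MP_9cec2c_lc.SL
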