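import Pool.Agent.Lib.MP_9cec2c_lc.RC.Lin
import Pool.Agent.Lib.MP_9cec2c_lc.RC.RcUnion
import Pool.Agent.Lib.MP_9cec2c_lc.RC.RcUnsat

/-!
TASK RcMain (medium): random 3-CNFs have pseudo-expectations of linear degree.

`Δ = 0`: the CNF is empty (`Fin (0 * N)` is empty), and `HasPE [] D` holds for every `D` (evaluation at a point), so
the probability is `0`: prove `hasPE_nil` by `lin_pe`-independent evaluation at `fun _ => false`. (Or: use `Δ + 1` as an upper bound is
NOT possible, the number of clauses changes.) `Δ ≥ 1`: let `η = 1 / (16 (216 Δ)^4)`, `κ = η / 64`. `hasPE_mono`: `HasPE F D'`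
implies `HasPE F D` for `D ≤ D'` (`Poly X D ≤ Poly X D'`). Let `D' = ⌊κ N⌋ + 3`, `a = 8 D'`, `K = 2` in `lin_pe`
(`4 · 2 · D' ≤ a`), `hF` is `cnf3_hF`. If `N ≥ N₀` (`96 ≤ η N / 2`), then `2 a = 16 D' ≤ 16 (κ N + 3) = η N / 4 + 48 ≤ η N`,
so `prob (¬ HasPE ..) ≤ prob (not expanding up to 2 a) ≤ 2 / (η N)` (`prob_mono`, `prob_not_expand`). For `N < N₀`: `prob ≤ 1 ≤ N₀ / N`.
So `C = 2/η + N₀` works.
-/

set_option autoImplicit false

open Finset
open scoped Classical

namespace Pool.Agent.MP_9cec2c_lc.SL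

theorem poly_mono {X : Type} {d d' : ℕ} (h : d ≤ d') : Poly X d ≤ Poly X d' := by
  refine Submodule.span_mono ?_
  rintro f ⟨T, hT, rfl⟩
  exact ⟨T, hT.trans h, rfl⟩

theorem hasPE_mono {X : Type} {F : List (List (X × Bool))} {D D' : ℕ} (h : D ≤ D') (hF : HasPE F D') :
    HasPE F D := by
  obtain ⟨E, h1, h2, h3⟩ := hF
  exact ⟨E, h1, fun f hf => h2 f (poly_mono h hf), h3⟩

theorem hasPE_nil (X : Type) (D : ℕ) : HasPE ([] : List (List (X × Bool))) D := by
  refine ⟨LinearMap.proj (fun _ => false), rfl, fun f _ => ?_, fun C hC => ?_⟩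
  · exact mul_self_nonneg (f (fun _ => false))
  · exact absurd hC (List.not_mem_nil)

/-- Random 3-CNFs have pseudo-expectations of linear degree. -/
theorem rc_pe' (Δ : ℕ) : ∃ κ C : ℝ, 0 < κ ∧ 0 < C ∧ ∀ N : ℕ, 1 ≤ N →
    prob (fun c : Fin (Δ * N) → Clause3 N => ¬ HasPE (cnf3 c) ⌊κ * N⌋₊) ≤ C / N := by
  rcases Nat.eq_zero_or_pos Δ with hΔ | hΔ
  · subst hΔ
    refine ⟨1, 1, one_pos, one_pos, fun N hN => ?_⟩
    have h0 : prob (fun c : Fin (0 * N) → Clause3 N => ¬ HasPE (cnf3 c) ⌊(1 : ℝ) * N⌋₊) = 0 := by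
      refine le_antisymm ?_ (prob_nonneg _)
      have hF : ∀ c : Fin (0 * N) → Clause3 N, ¬ HasPE (cnf3 c) ⌊(1 : ℝ) * N⌋₊ → False := by
        intro c hc
        have hnil : cnf3 c = [] := by
          apply List.eq_nil_of_length_eq_zero
          unfold cnf3
          rw [List.length_ofFn, Nat.zero_mul]
        rw [hnil] at hc
        exact hc (hasPE_nil _ _)
      refine (prob_mono (R := fun _ => False) hF).trans ?_
      unfold prob
      simp
    rw [h0]
    positivity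
  · have hΔ' : (1 : ℝ) ≤ Δ := by exact_mod_cast hΔ
    set B : ℝ := (216 * (Δ : ℝ)) ^ 4 with hB
    have hBpos : 0 < B := by positivity
    set η : ℝ := 1 / (16 * B) with hη
    have hηpos : 0 < η := by positivity
    have hη1 : B * η ≤ 1 / 16 := by
      rw [hη]
      apply le_of_eq
      field_simp
    refine ⟨η / 64, 64 / η, by positivity, by positivity, fun N hN => ?_⟩
    have hN' : (1 : ℝ) ≤ N := by exact_mod_cast hN
    have hNpos : (0 : ℝ) < N := by linarith
    by_cases hbig : 64 ≤ η * N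
    · set D : ℕ := ⌊η / 64 * N⌋₊ with hD
      have hDle : (D : ℝ) ≤ η / 64 * N := Nat.floor_le (by positivity)
      have hA : ((2 * (8 * (D + 3)) : ℕ) : ℝ) ≤ η * N := by
        push_cast
        nlinarith
      have h1 := prob_not_expand (Δ := Δ) (N := N) (A := 2 * (8 * (D + 3))) (η := η) hΔ hN hηpos
        (by rw [← hB]; exact hη1) hA
      refine (prob_mono ?_).trans (h1.trans ?_)
      · intro c hc hexp
        apply hc
        apply hasPE_mono (Nat.le_add_right D 3)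
        exact lin_pe (fun v => crow (c v)) (fun v => crhs (c v)) 2 (8 * (D + 3)) (D + 3)
          (fun T hT => hexp T hT) (by omega) (by omega) (cnf3 c) (cnf3_hF c (by omega))
      · rw [div_div, div_le_div_iff_of_pos_right (by positivity)]
        norm_num
    · refine (prob_le_one _).trans ?_
      rw [div_div, one_le_div (by positivity)]
      linarith

theorem rc_pe (Δ : ℕ) : ∃ κ C : ℝ, 0 < κ ∧ ∀ N : ℕ, 1 ≤ N →
    prob (fun c : Fin (Δ * N) → Clause3 N => ¬ HasPE (cnf3 c) ⌊κ * N⌋₊) ≤ C * (N : ℝ) ^ (-(1 / 4 : ℝ)) := by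
  obtain ⟨κ, C, hκ, hC, h⟩ := rc_pe' Δ
  refine ⟨κ, C, hκ, fun N hN => (h N hN).trans ?_⟩
  have hN' : (1 : ℝ) ≤ N := by exact_mod_cast hN
  rw [div_eq_mul_inv]
  refine mul_le_mul_of_nonneg_left ?_ hC.le
  rw [← Real.rpow_neg_one]
  exact Real.rpow_le_rpow_of_exponent_le hN' (by norm_num)

end Pool.Agent.MP_9cec2c_lc.SL
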