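import Pool.Agent.Lib.MP_9cec2c_lc.FS.Defs
import Pool.Agent.Lib.MP_9cec2c_lc.SL.Gr

/-!
Block RC, definitions: random 3-CNFs as linear systems over `Z/2`.
-/

set_option autoImplicit false

open Finset
open scoped Classical

namespace Pool.Agent.MP_9cec2c_lc.SL

noncomputable section

/-- The three variables of a clause. -/
def cvars {N : ℕ} (c : Clause3 N) : Finset (Fin N) := univ.image (fun i => c.1 i)

/-- The sum (mod 2) of the three variables of a clause. -/
def crow {N : ℕ} (c : Clause3 N) : Cube (Fin N) := fun x => if x ∈ cvars c then 1 else 0

/-- The value of the sum of the three variables for which the equation implies the clause. -/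
def crhs {N : ℕ} (c : Clause3 N) : ZMod 2 := ∑ i, (if c.2 i = true then 1 else 0)

/-- The sum of the rows in `T`. -/
def comb {V E : Type} [Fintype V] (A : V → Cube E) (T : Cube V) : Cube E := fun e => ∑ v, T v * A v e

end

end Pool.Agent.MP_9cec2c_lc.SL
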