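import Pool.Agent.Lib.MP_9cec2c_lc.RC.LinE

/-!
Linear systems over `Z/2` with expansion have pseudo-expectations.
-/

set_option autoImplicit false

open Finset
open scoped Classical

namespace Pool.Agent.MP_9cec2c_lc.SL

private theorem Lin_core {ι : Type} (B : Finset ι) (a : ι → ℝ) (M : ι → ι → ℝ)
    (h1 : ∀ S ∈ B, M S S = 1) (h2 : ∀ S T, M S T = M T S)
    (h3 : ∀ S T, M S T ≠ 0 → M S T * M S T = 1)
    (h4 : ∀ S ∈ B, ∀ T ∈ B, ∀ W ∈ B, M S T ≠ 0 → M T W ≠ 0 → M S W = M S T * M T W) :
    0 ≤ ∑ S ∈ B, ∑ T ∈ B, a S * a T * M S T := by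
  set c : ι → ℝ := fun S => ((B.filter (fun W => M S W ≠ 0)).card : ℝ) with hc
  have hc0 : ∀ S ∈ B, c S ≠ 0 := by
    intro S hS h
    have h5 : (B.filter (fun W => M S W ≠ 0)).card = 0 := Nat.cast_eq_zero.1 h
    rw [Finset.card_eq_zero] at h5
    have h6 : S ∈ B.filter (fun W => M S W ≠ 0) := by
      rw [Finset.mem_filter]
      refine ⟨hS, ?_⟩
      rw [h1 S hS]
      exact one_ne_zero
    rw [h5] at h6
    exact absurd h6 (Finset.notMem_empty S)
  have hcc : ∀ S ∈ B, ∀ W ∈ B, M S W ≠ 0 → c W = c S := by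
    intro S hS W hW hSW
    have hWS : M W S ≠ 0 := by rw [h2]; exact hSW
    have h5 : B.filter (fun X => M W X ≠ 0) = B.filter (fun X => M S X ≠ 0) := by
      refine Finset.filter_congr fun X hX => ?_
      constructor
      · intro h
        rw [h4 S hS W hW X hX hSW h]
        exact mul_ne_zero hSW h
      · intro h
        rw [h4 W hW S hS X hX hWS h]
        exact mul_ne_zero hWS h
    simp only [hc, h5]
  have key : ∀ S ∈ B, ∀ T ∈ B, ∑ W ∈ B, (c W)⁻¹ * (M S W * M T W) = M S T := by
    intro S hS T hT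
    by_cases hST : M S T = 0
    · rw [hST]
      refine Finset.sum_eq_zero fun W hW => ?_
      by_contra hne
      have h5 : M S W ≠ 0 := fun h => hne (by rw [h]; ring)
      have h6 : M T W ≠ 0 := fun h => hne (by rw [h]; ring)
      have h7 : M W T ≠ 0 := by rw [h2]; exact h6
      have h8 := h4 S hS W hW T hT h5 h7
      rw [hST] at h8
      exact mul_ne_zero h5 h7 h8.symm
    · have hTS : M T S ≠ 0 := by rw [h2]; exact hST
      have h5 : ∀ W ∈ B, (c W)⁻¹ * (M S W * M T W) =
          if M S W ≠ 0 then (c S)⁻¹ * M S T else 0 := by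
        intro W hW
        split_ifs with hSW
        · rw [hcc S hS W hW hSW, h4 T hT S hS W hW hTS hSW, h2 T S]
          have h6 := h3 S W hSW
          linear_combination ((c S)⁻¹ * M S T) * h6
        · rw [not_not] at hSW
          rw [hSW]
          ring
      rw [Finset.sum_congr rfl h5, ← Finset.sum_filter, Finset.sum_const, nsmul_eq_mul]
      show c S * ((c S)⁻¹ * M S T) = M S T
      rw [← mul_assoc, mul_inv_cancel₀ (hc0 S hS), one_mul]
  have hsum : ∑ S ∈ B, ∑ T ∈ B, a S * a T * M S T =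
      ∑ W ∈ B, (c W)⁻¹ * (∑ S ∈ B, a S * M S W) ^ 2 := by
    have h5 : ∀ W ∈ B, (c W)⁻¹ * (∑ S ∈ B, a S * M S W) ^ 2 =
        ∑ S ∈ B, ∑ T ∈ B, a S * a T * ((c W)⁻¹ * (M S W * M T W)) := by
      intro W _
      rw [sq, Finset.sum_mul_sum, Finset.mul_sum]
      refine Finset.sum_congr rfl fun S _ => ?_
      rw [Finset.mul_sum]
      refine Finset.sum_congr rfl fun T _ => ?_
      ring
    symm
    rw [Finset.sum_congr rfl h5, Finset.sum_comm]
    refine Finset.sum_congr rfl fun S hS => ?_
    rw [Finset.sum_comm]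
    refine Finset.sum_congr rfl fun T hT => ?_
    rw [← Finset.mul_sum, key S hS T hT]
  rw [hsum]
  refine Finset.sum_nonneg fun W _ => mul_nonneg (inv_nonneg.2 (Nat.cast_nonneg _)) (sq_nonneg _)


private theorem Lin_add_self {E : Type} (S : Cube E) : S + S = 0 := by
  funext e
  exact CharTwo.add_self_eq_zero (S e)

section

variable {V E : Type} [Fintype V] [Fintype E] (A : V → Cube E) (γ : Cube V)

omit [Fintype E] in
private theorem Lin_comb_add (T T' : Cube V) : comb A (T + T') = comb A T + comb A T' := by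
  funext e
  simp only [comb, Pi.add_apply]
  rw [← Finset.sum_add_distrib]
  exact Finset.sum_congr rfl fun v _ => by ring

omit [Fintype E] in
private theorem Lin_comb_zero : comb A 0 = 0 := by
  funext e
  simp [comb]

omit [Fintype E] in
private theorem Lin_comb_pt (v : V) : comb A (pt v) = A v := by
  funext e
  simp [comb, pt, ite_mul]

private theorem Lin_chi (a : ℕ) (S : Cube E) : lEx A γ a (chi S) = le A γ a S := by
  show ∑ T, fc (chi S) T * le A γ a T = le A γ a S
  simp [fc_chi, ite_mul]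

variable {a K : ℕ} (hexp : ∀ T : Cube V, wt T ≤ 2 * a → wt T ≤ K * wt (comb A T))
include hexp

private theorem Lin_inj {T T' : Cube V} (h : comb A T = comb A T') (hT : wt T ≤ a)
    (hT' : wt T' ≤ a) : T = T' := by
  have h1 : comb A (T + T') = 0 := by rw [Lin_comb_add, h, Lin_add_self]
  have h2 := hexp (T + T') ((wt_add_le T T').trans (by omega))
  rw [h1, wt_zero, mul_zero] at h2
  have h3 := wt_eq_zero (Nat.le_zero.mp h2)
  have h4 : T + T' + T' = 0 + T' := by rw [h3]
  rw [add_assoc, Lin_add_self, add_zero, zero_add] at h4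
  exact h4

private theorem Lin_e_comb {T : Cube V} (hT : wt T ≤ a) : le A γ a (comb A T) = sg (dot γ T) := by
  unfold le
  have h : ∃ T' : Cube V, comb A T' = comb A T ∧ wt T' ≤ a := ⟨T, rfl, hT⟩
  rw [dif_pos h, Lin_inj A hexp h.choose_spec.1 h.choose_spec.2 hT]

private theorem Lin_e_zero : le A γ a 0 = 1 := by
  rw [← Lin_comb_zero A, Lin_e_comb A γ hexp (by rw [wt_zero]; omega), dot_zero_right, sg_zero]

private theorem Lin_e_cases {S : Cube E} (h : le A γ a S ≠ 0) :
    ∃ T : Cube V, comb A T = S ∧ wt T ≤ a ∧ wt T ≤ K * wt S ∧ le A γ a S = sg (dot γ T) := by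
  by_cases h' : ∃ T : Cube V, comb A T = S ∧ wt T ≤ a
  · obtain ⟨T, rfl, hT⟩ := h'
    exact ⟨T, rfl, hT, hexp T (by omega), Lin_e_comb A γ hexp hT⟩
  · exact absurd (dif_neg h') h

private theorem Lin_e_mul {D : ℕ} (hD : 4 * K * D ≤ a) {S S' : Cube E} (hS : wt S ≤ 2 * D)
    (hS' : wt S' ≤ 2 * D) (h : le A γ a S ≠ 0) (h' : le A γ a S' ≠ 0) :
    le A γ a (S + S') = le A γ a S * le A γ a S' := by
  obtain ⟨T, hT, _, hT2, hT3⟩ := Lin_e_cases A γ hexp h
  obtain ⟨T', hT', _, hT2', hT3'⟩ := Lin_e_cases A γ hexp h'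
  have h1 : wt (T + T') ≤ a := by
    have h2 := wt_add_le T T'
    have h3 : K * wt S ≤ K * (2 * D) := Nat.mul_le_mul_left _ hS
    have h4 : K * wt S' ≤ K * (2 * D) := Nat.mul_le_mul_left _ hS'
    have h5 : K * (2 * D) + K * (2 * D) = 4 * K * D := by ring
    omega
  rw [hT3, hT3', ← hT, ← hT', ← Lin_comb_add, Lin_e_comb A γ hexp h1, dot_add_right, sg_add]

private theorem Lin_psd {D : ℕ} (hD : 4 * K * D ≤ a) {f : Cube E → ℝ} (hf : f ∈ Fd E D) :
    0 ≤ lEx A γ a (f * f) := by
  have hE : lEx A γ a (f * f) = ∑ S, ∑ T, fc f S * fc f T * le A γ a (S + T) := by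
    have h1 : f * f = ∑ S, ∑ T, (fc f S * fc f T) • chi (S + T) := by
      conv_lhs => rw [fc_inv f]
      rw [Finset.sum_mul_sum]
      refine Finset.sum_congr rfl fun S _ => Finset.sum_congr rfl fun T _ => ?_
      rw [chi_add, smul_mul_smul_comm]
    rw [h1, map_sum]
    refine Finset.sum_congr rfl fun S _ => ?_
    rw [map_sum]
    refine Finset.sum_congr rfl fun T _ => ?_
    rw [map_smul, Lin_chi, smul_eq_mul]
  set B : Finset (Cube E) := univ.filter (fun S => wt S ≤ D) with hB
  have hB0 : ∀ S, S ∉ B → fc f S = 0 := by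
    intro S hS
    refine fc_eq_zero hf ?_
    rw [hB, Finset.mem_filter, not_and] at hS
    exact not_le.1 (hS (Finset.mem_univ S))
  have h2 : ∑ S, ∑ T, fc f S * fc f T * le A γ a (S + T) =
      ∑ S ∈ B, ∑ T ∈ B, fc f S * fc f T * le A γ a (S + T) := by
    symm
    have h3 : ∀ S, ∑ T ∈ B, fc f S * fc f T * le A γ a (S + T) =
        ∑ T, fc f S * fc f T * le A γ a (S + T) := by
      intro S
      refine Finset.sum_subset (Finset.subset_univ B) fun T _ hT => ?_
      rw [hB0 T hT]
      ring
    simp only [h3]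
    refine Finset.sum_subset (Finset.subset_univ B) fun S _ hS => ?_
    refine Finset.sum_eq_zero fun T _ => ?_
    rw [hB0 S hS]
    ring
  rw [hE, h2]
  have hwt : ∀ S ∈ B, wt S ≤ D := fun S hS => (Finset.mem_filter.1 hS).2
  refine Lin_core B (fc f) (fun S T => le A γ a (S + T)) ?_ ?_ ?_ ?_
  · intro S _
    rw [Lin_add_self, Lin_e_zero A γ hexp]
  · intro S T
    rw [add_comm]
  · intro S T h
    obtain ⟨U, _, _, _, hU⟩ := Lin_e_cases A γ hexp h
    rw [hU, sg_mul_self]
  · intro S hS T hT W hW h h'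
    have h5 : S + W = (S + T) + (T + W) := by
      rw [add_assoc, ← add_assoc T T W, Lin_add_self, zero_add]
    have h6 := wt_add_le S T
    have h7 := wt_add_le T W
    have h8 := hwt S hS
    have h9 := hwt T hT
    have h10 := hwt W hW
    rw [h5]
    exact Lin_e_mul A γ hexp hD (by omega) (by omega) h h'

private theorem Lin_one : lEx A γ a 1 = 1 := by
  rw [← chi_zero, Lin_chi, Lin_e_zero A γ hexp]

end

private theorem Lin_sg_ne {s t : ZMod 2} (h : s ≠ t) : sg s = - sg t := by
  have h1 : s = t + 1 := by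
    revert h; revert s t; decide
  rw [h1, sg_add]
  have h2 : sg 1 = -1 := by unfold sg; rw [if_neg (by decide)]
  rw [h2]; ring

/-- A system of linear equations over `Z/2` (equation `v`: `∑_e A v e x_e = γ v`) in which the sum of `t ≤ 2a`
equations contains at least `t / K` variables. If every clause of `F` follows from one equation, `F` has a
pseudo-expectation. -/
theorem lin_pe {V E : Type} [Fintype V] [Fintype E] (A : V → Cube E) (γ : Cube V) (K a D : ℕ)
    (hexp : ∀ T : Cube V, wt T ≤ 2 * a → wt T ≤ K * wt (fun e => ∑ v, T v * A v e))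
    (hD : 4 * K * D ≤ a) (ha : 1 ≤ a) (F : List (List (E × Bool)))
    (hF : ∀ C ∈ F, C.length ≤ D ∧ ∃ v, wt (A v) ≤ D ∧ ∀ x : E → Bool,
      (∀ l ∈ C, x l.1 ≠ l.2) → ∑ e, A v e * (if x e = true then 1 else 0) ≠ γ v) :
    HasPE F D := by
  have hexp' : ∀ T : Cube V, wt T ≤ 2 * a → wt T ≤ K * wt (comb A T) := hexp
  let τ : Cube E → (E → Bool) := fun x e => decide (x e ≠ 0)
  refine ⟨(lEx A γ a).comp (LinearMap.funLeft ℝ ℝ τ), ?_, ?_, ?_⟩
  · show lEx A γ a (fun x => (1 : (E → Bool) → ℝ) (τ x)) = 1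
    exact Lin_one A γ hexp'
  · intro f hf
    have h1 : LinearMap.funLeft ℝ ℝ τ f ∈ Fd E D := by
      have h2 : Poly E D ≤ Submodule.comap (LinearMap.funLeft ℝ ℝ τ) (Fd E D) := by
        unfold Poly
        rw [Submodule.span_le]
        rintro g ⟨T, hT, rfl⟩
        show LinearMap.funLeft ℝ ℝ τ _ ∈ Fd E D
        refine Fd_mono hT (local_mem T ?_)
        intro x y hxy
        have h3 : (∀ i ∈ T, τ x i = true) ↔ (∀ i ∈ T, τ y i = true) := by
          refine forall₂_congr fun i hi => ?_
          simp only [τ, hxy i hi]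
        simp only [LinearMap.funLeft_apply]
        by_cases h4 : ∀ i ∈ T, τ x i = true
        · rw [if_pos h4, if_pos (h3.mp h4)]
        · rw [if_neg h4, if_neg (fun h => h4 (h3.mpr h))]
      exact h2 hf
    exact Lin_psd A γ hexp' hD h1
  · intro C hC
    obtain ⟨hlen, v, hv, hv'⟩ := hF C hC
    set J : Cube E → ℝ := fun x => if ∀ l ∈ C, τ x l.1 ≠ l.2 then 1 else 0 with hJ
    rw [LinearMap.comp_apply]
    refine (congrArg (lEx A γ a) (?_ : _ = J)).trans ?_
    · funext x
      rw [LinearMap.funLeft_apply]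
      by_cases h4 : ∀ l ∈ C, τ x l.1 ≠ l.2
      · exact (if_pos h4).trans (if_pos h4).symm
      · exact (if_neg h4).trans (if_neg h4).symm
    have hJm : J ∈ Fd E D := by
      have h1 : ((C.map Prod.fst).toFinset).card ≤ D :=
        (List.toFinset_card_le _).trans (by rw [List.length_map]; exact hlen)
      refine Fd_mono h1 (local_mem _ ?_)
      intro x y hxy
      have h3 : (∀ l ∈ C, τ x l.1 ≠ l.2) ↔ (∀ l ∈ C, τ y l.1 ≠ l.2) := by
        refine forall₂_congr fun l hl => ?_
        have h4 : x l.1 = y l.1 := hxy l.1 (by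
          rw [List.mem_toFinset]
          exact List.mem_map_of_mem hl)
        simp only [τ, h4]
      simp only [hJ]
      by_cases h4 : ∀ l ∈ C, τ x l.1 ≠ l.2
      · rw [if_pos h4, if_pos (h3.mp h4)]
      · rw [if_neg h4, if_neg (fun h => h4 (h3.mpr h))]
    set z : Cube E → ℝ := chi (A v) - sg (γ v) • (1 : Cube E → ℝ) with hz
    have hzm : z ∈ Fd E D :=
      Submodule.sub_mem _ (chi_mem hv) (Submodule.smul_mem _ _ (one_mem_Fd D))
    have hJz : J * z = (-2 * sg (γ v)) • J := by
      funext x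
      simp only [Pi.mul_apply, Pi.smul_apply, smul_eq_mul, hz, Pi.sub_apply, Pi.one_apply, mul_one]
      by_cases h4 : ∀ l ∈ C, τ x l.1 ≠ l.2
      · have h5 : J x = 1 := if_pos h4
        have h6 : dot (A v) x ≠ γ v := by
          have h7 := hv' (τ x) h4
          have h8 : ∑ e, A v e * (if τ x e = true then 1 else 0) = dot (A v) x := by
            unfold dot
            refine Finset.sum_congr rfl fun e _ => ?_
            congr 1
            have h9 : ∀ s : ZMod 2, (if decide (s ≠ 0) = true then (1 : ZMod 2) else 0) = s := by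
              decide
            exact h9 (x e)
          rw [h8] at h7
          exact h7
        have h7 : chi (A v) x = - sg (γ v) := Lin_sg_ne h6
        rw [h5, h7]
        ring
      · have h5 : J x = 0 := if_neg h4
        rw [h5]
        ring
    have hAv : le A γ a (A v) = sg (γ v) := by
      have h1 : wt (pt v : Cube V) ≤ a := by rw [wt_pt]; exact ha
      have h2 := Lin_e_comb A γ hexp' h1
      rw [Lin_comb_pt, dot_comm, dot_pt] at h2
      exact h2
    have hzz : lEx A γ a (z * z) = 0 := by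
      have h1 : z * z = chi (0 : Cube E) - (2 * sg (γ v)) • chi (A v) +
          (sg (γ v) * sg (γ v)) • chi (0 : Cube E) := by
        rw [chi_zero]
        funext x
        have h2 := congrFun (chi_mul_self (A v)) x
        simp only [Pi.mul_apply, Pi.one_apply] at h2
        simp only [hz, Pi.mul_apply, Pi.sub_apply, Pi.smul_apply, Pi.one_apply, smul_eq_mul,
          Pi.add_apply, mul_one]
        linear_combination h2
      rw [h1, map_add, map_sub, map_smul, map_smul, Lin_chi, Lin_chi, hAv, Lin_e_zero A γ hexp',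
        sg_mul_self, smul_eq_mul, smul_eq_mul]
      linear_combination (-2 : ℝ) * sg_mul_self (γ v)
    have hcs : lEx A γ a (J * z) = 0 := by
      have h1 : ∀ t : ℝ, 0 ≤ lEx A γ a (J * J) + 2 * t * lEx A γ a (J * z) := by
        intro t
        have h2 := Lin_psd A γ hexp' hD (Submodule.add_mem _ hJm (Submodule.smul_mem _ t hzm))
        have h3 : (J + t • z) * (J + t • z) = J * J + (2 * t) • (J * z) + (t * t) • (z * z) := by
          funext x
          simp only [Pi.mul_apply, Pi.add_apply, Pi.smul_apply, smul_eq_mul]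
          ring
        rw [h3, map_add, map_add, map_smul, map_smul, hzz, smul_zero, add_zero, smul_eq_mul] at h2
        exact h2
      by_contra hne
      have h2 := h1 (-(lEx A γ a (J * J) + 1) / (2 * lEx A γ a (J * z)))
      have h3 : 2 * (-(lEx A γ a (J * J) + 1) / (2 * lEx A γ a (J * z))) * lEx A γ a (J * z) =
          -(lEx A γ a (J * J) + 1) := by
        field_simp
      rw [h3] at h2
      linarith
    rw [hJz, map_smul, smul_eq_mul] at hcs
    have h1 : -2 * sg (γ v) ≠ 0 := by
      have h2 := abs_sg (γ v)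
      intro h3
      have h4 : sg (γ v) = 0 := by linarith
      rw [h4, abs_zero] at h2
      exact zero_ne_one h2
    exact (mul_eq_zero.mp hcs).resolve_left h1

end Pool.Agent.MP_9cec2c_lc.SL
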