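import Pool.Agent.Lib.MP_9cec2c_lc.RC.Defs
import Pool.Agent.Lib.MP_9cec2c_lc.SL.CubeA

/-!
The pseudo-expectation of a linear system over `Z/2` with expansion.
-/

set_option autoImplicit false

open Finset
open scoped Classical

namespace Pool.Agent.MP_9cec2c_lc.SL

section

variable {V E : Type} [Fintype V] [Fintype E] (A : V → Cube E) (γ : Cube V) (a : ℕ)

/-- The pseudo-expectation of the character of `S`. -/
noncomputable def le (S : Cube E) : ℝ :=
  if h : ∃ T : Cube V, comb A T = S ∧ wt T ≤ a then sg (dot γ h.choose) else 0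

/-- The pseudo-expectation of a function. -/
noncomputable def lEx : (Cube E → ℝ) →ₗ[ℝ] ℝ where
  toFun f := ∑ S, fc f S * le A γ a S
  map_add' f g := by
    rw [← sum_add_distrib]
    refine sum_congr rfl fun S _ => ?_
    rw [fc_add]; ring
  map_smul' c f := by
    rw [RingHom.id_apply, smul_eq_mul, mul_sum]
    refine sum_congr rfl fun S _ => ?_
    rw [fc_smul]; ring

end

end Pool.Agent.MP_9cec2c_lc.SL
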