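import Pool.Agent.Lib.MP_9cec2c_lc.RC.Defs

/-!
TASK RcCl (easy): elementary facts on clauses, and the clause follows from the equation.
`cvars_card`: the map `c.1` is injective (`Finset.card_image_of_injective`). `wt_crow`: `crow c x ≠ 0` iff
`x ∈ cvars c`. `clause_eq`: if `x (c.1 i) ≠ c.2 i` for all `i`, then
`∑_e crow c e * [x e] = ∑_i [x (c.1 i)] = ∑_i (1 + [c.2 i]) = 3 + crhs c ≠ crhs c` (sum over the image of the
injective map `c.1`; in `ZMod 2` `[¬ b] = 1 + [b]`, `3 = 1`). `mem_cnf3`: `List.mem_ofFn`.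
-/

set_option autoImplicit false

open Finset
open scoped Classical

namespace Pool.Agent.MP_9cec2c_lc.SL

theorem cvars_card {N : ℕ} (c : Clause3 N) : (cvars c).card = 3 := by
  unfold cvars
  rw [Finset.card_image_of_injective _ c.1.injective, Finset.card_univ, Fintype.card_fin]

private theorem RcCl_crow_ne {N : ℕ} (c : Clause3 N) (e : Fin N) :
    crow c e ≠ 0 ↔ e ∈ cvars c := by
  unfold crow
  by_cases h : e ∈ cvars c
  · simp [h]
  · simp [h]

theorem wt_crow {N : ℕ} (c : Clause3 N) : wt (crow c) = 3 := by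
  have h1 : (univ.filter (fun e => crow c e ≠ 0)) = cvars c := by
    ext e
    rw [Finset.mem_filter]
    exact ⟨fun h => (RcCl_crow_ne c e).1 h.2, fun h => ⟨Finset.mem_univ e, (RcCl_crow_ne c e).2 h⟩⟩
  unfold wt
  rw [h1, cvars_card]

private theorem RcCl_sum {N : ℕ} (c : Clause3 N) (x : Fin N → Bool) :
    ∑ e, crow c e * (if x e = true then 1 else 0) =
      ∑ i, (if x (c.1 i) = true then (1 : ZMod 2) else 0) := by
  have h1 : ∀ e, crow c e * (if x e = true then 1 else 0) =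
      if e ∈ cvars c then (if x e = true then (1 : ZMod 2) else 0) else 0 := by
    intro e
    unfold crow
    by_cases h : e ∈ cvars c
    · rw [if_pos h, if_pos h, one_mul]
    · rw [if_neg h, if_neg h, zero_mul]
  rw [Finset.sum_congr rfl (fun e _ => h1 e), Finset.sum_ite_mem, Finset.univ_inter]
  unfold cvars
  rw [Finset.sum_image]
  intro a _ b _ hab
  exact c.1.injective hab

private theorem RcCl_neg (a b : Bool) (h : a ≠ b) :
    (if a = true then (1 : ZMod 2) else 0) = 1 + (if b = true then (1 : ZMod 2) else 0) := by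
  revert h
  revert a b
  decide

theorem clause_eq {N : ℕ} (c : Clause3 N) (x : Fin N → Bool) (h : ∀ i, x (c.1 i) ≠ c.2 i) :
    ∑ e, crow c e * (if x e = true then 1 else 0) ≠ crhs c := by
  rw [RcCl_sum, Finset.sum_congr rfl (fun i _ => RcCl_neg _ _ (h i)), Finset.sum_add_distrib]
  unfold crhs
  intro h1
  have h2 : (∑ i : Fin 3, (1 : ZMod 2)) = 0 := by
    have h3 := congrArg (fun z => z - ∑ i, (if c.2 i = true then (1 : ZMod 2) else 0)) h1
    simpa using h3
  rw [Finset.sum_const, Finset.card_univ, Fintype.card_fin] at h2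
  revert h2
  decide

/-- The hypothesis `hF` of `lin_pe` for the CNF of a sequence of 3-clauses. -/
theorem cnf3_hF {N M : ℕ} (c : Fin M → Clause3 N) {D : ℕ} (hD : 3 ≤ D) :
    ∀ C ∈ cnf3 c, C.length ≤ D ∧ ∃ v : Fin M, wt (crow (c v)) ≤ D ∧ ∀ x : Fin N → Bool,
      (∀ l ∈ C, x l.1 ≠ l.2) →
        ∑ e, crow (c v) e * (if x e = true then 1 else 0) ≠ crhs (c v) := by
  intro C hC
  unfold cnf3 at hC
  rw [List.mem_ofFn] at hC
  obtain ⟨v, rfl⟩ := hC
  refine ⟨?_, v, ?_, ?_⟩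
  · rw [List.length_ofFn]
    exact hD
  · rw [wt_crow]
    exact hD
  · intro x hx
    refine clause_eq (c v) x ?_
    intro i
    exact hx ((c v).1 i, (c v).2 i) (List.mem_ofFn.2 ⟨i, rfl⟩)

/-- The CNF is satisfied iff every clause has a true literal. -/
theorem cnf3_sat {N M : ℕ} (c : Fin M → Clause3 N) (x : Fin N → Bool) :
    (∀ C ∈ cnf3 c, ∃ l ∈ C, x l.1 = l.2) ↔ ∀ j, ∃ i, x ((c j).1 i) = (c j).2 i := by
  unfold cnf3
  constructor
  · intro h j
    obtain ⟨l, hl, hl2⟩ := h _ (List.mem_ofFn.2 ⟨j, rfl⟩)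
    obtain ⟨i, rfl⟩ := List.mem_ofFn.1 hl
    exact ⟨i, hl2⟩
  · intro h C hC
    obtain ⟨j, rfl⟩ := List.mem_ofFn.1 hC
    obtain ⟨i, hi⟩ := h j
    exact ⟨((c j).1 i, (c j).2 i), List.mem_ofFn.2 ⟨i, rfl⟩, hi⟩

end Pool.Agent.MP_9cec2c_lc.SL
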