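import Pool.Agent.Lib.MP_9cec2c_lc.RC.RcCl

/-!
TASK RcComb (medium): a set `T` of equations whose sum has few variables is covered by few variables.

Let `J = {i | T i ≠ 0}`, `j = |J| = wt T`, `U = J.biUnion (cvars ∘ c)`, and for `x ∈ U` let
`deg x = #{i ∈ J | x ∈ cvars (c i)}`. Double counting: `∑_{x ∈ U} deg x = ∑_{i ∈ J} |cvars (c i)| = 3 j`
(`Finset.sum_card_bipartiteAbove_eq_sum_card_bipartiteBelow` or `Finset.sum_comm`). For `x ∈ U`: `deg x ≥ 1`, and
`comb (crow ∘ c) T x = (deg x : ZMod 2)` (`T i = 1` for `i ∈ J`), so if `comb .. x = 0`, then `deg x` is even and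
`deg x ≥ 2`. Hence `3 j ≥ 2 |U| - #{x ∈ U | comb .. x ≠ 0} ≥ 2 |U| - wt (comb ..)`, and with
`2 wt (comb ..) < j`: `4 |U| ≤ 6 j + 2 wt (comb ..) < 7 j`, i.e. `|U| ≤ (7 j - 1) / 4`. Enlarge `U` to a set `W`
with exactly `(7 j - 1) / 4 ≤ N` elements (`Finset.exists_superset_card_eq` or `Finset.exists_subsuperset_card_eq`).
-/

set_option autoImplicit false

open Finset
open scoped Classical

namespace Pool.Agent.MP_9cec2c_lc.SL

private theorem RcComb_comb {N M : ℕ} (c : Fin M → Clause3 N) (T : Cube (Fin M)) (x : Fin N) :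
    comb (fun v => crow (c v)) T x =
      (((univ.filter (fun i => T i ≠ 0)).filter (fun i => x ∈ cvars (c i))).card : ZMod 2) := by
  unfold comb crow
  rw [Finset.filter_filter, Finset.card_filter, Nat.cast_sum]
  refine Finset.sum_congr rfl fun v _ => ?_
  by_cases h1 : T v = 0
  · simp [h1]
  · have h2 : T v = 1 := by
      generalize T v = y at h1
      revert h1
      revert y
      decide
    by_cases h3 : x ∈ cvars (c v)
    · simp [h2, h3]
    · simp [h3]

theorem bad_cover {N M : ℕ} (c : Fin M → Clause3 N) (T : Cube (Fin M))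
    (hbad : 2 * wt (comb (fun v => crow (c v)) T) < wt T) (hN : (7 * wt T - 1) / 4 ≤ N) :
    ∃ (J : Finset (Fin M)) (W : Finset (Fin N)), J.card = wt T ∧ W.card = (7 * wt T - 1) / 4 ∧
      ∀ i ∈ J, cvars (c i) ⊆ W := by
  set J : Finset (Fin M) := univ.filter (fun i => T i ≠ 0) with hJ
  have hJc : J.card = wt T := by
    rw [hJ]
    unfold wt
    congr 1
  set U : Finset (Fin N) := J.biUnion (fun i => cvars (c i)) with hU
  have hsum : ∑ x ∈ U, (J.filter (fun i => x ∈ cvars (c i))).card = 3 * J.card := by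
    have h1 : ∀ x ∈ U, (J.filter (fun i => x ∈ cvars (c i))).card =
        ∑ i ∈ J, if x ∈ cvars (c i) then 1 else 0 := fun x _ => by rw [Finset.card_filter]
    rw [Finset.sum_congr rfl h1, Finset.sum_comm]
    have h2 : ∀ i ∈ J, (∑ x ∈ U, if x ∈ cvars (c i) then 1 else 0) = 3 := by
      intro i hi
      rw [← Finset.card_filter]
      have h3 : U.filter (fun x => x ∈ cvars (c i)) = cvars (c i) := by
        ext x
        rw [Finset.mem_filter]
        constructor
        · exact fun h => h.2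
        · exact fun h => ⟨Finset.mem_biUnion.2 ⟨i, hi, h⟩, h⟩
      rw [h3, cvars_card]
    rw [Finset.sum_congr rfl h2, Finset.sum_const, smul_eq_mul, mul_comm]
  have hpt : ∀ x ∈ U, 2 ≤ (J.filter (fun i => x ∈ cvars (c i))).card +
      if comb (fun v => crow (c v)) T x ≠ 0 then 1 else 0 := by
    intro x hx
    obtain ⟨i, hi, hxi⟩ := Finset.mem_biUnion.1 hx
    have h1 : 0 < (J.filter (fun i => x ∈ cvars (c i))).card :=
      Finset.card_pos.2 ⟨i, Finset.mem_filter.2 ⟨hi, hxi⟩⟩
    split_ifs with h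
    · omega
    · rw [RcComb_comb, not_not, ← hJ] at h
      have h2 : 2 ∣ (J.filter (fun i => x ∈ cvars (c i))).card :=
        (ZMod.natCast_eq_zero_iff _ 2).1 h
      omega
  have h4 : 2 * U.card ≤ 3 * J.card + wt (comb (fun v => crow (c v)) T) := by
    have h5 := Finset.sum_le_sum hpt
    rw [Finset.sum_const, smul_eq_mul, Finset.sum_add_distrib, hsum, ← Finset.card_filter] at h5
    have h6 : (U.filter (fun x => comb (fun v => crow (c v)) T x ≠ 0)).card ≤
        wt (comb (fun v => crow (c v)) T) := by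
      unfold wt
      refine Finset.card_le_card fun x hx => ?_
      rw [Finset.mem_filter] at hx ⊢
      exact ⟨Finset.mem_univ _, hx.2⟩
    omega
  have h7 : U.card ≤ (7 * wt T - 1) / 4 := by
    rw [hJc] at h4
    omega
  obtain ⟨W, hUW, hW⟩ := Finset.exists_superset_card_eq h7 (by rw [Fintype.card_fin]; exact hN)
  refine ⟨J, W, hJc, hW, fun i hi => ?_⟩
  exact (Finset.subset_biUnion_of_mem (fun i => cvars (c i)) hi).trans hUW

end Pool.Agent.MP_9cec2c_lc.SL
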